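import Pool.Agent.V5helper57.OT.Stm

/-! Project OT (MP_b583a4_nt), job NT: no tuple. -/

set_option autoImplicit false
open Matrix

namespace Pool.Agent.V5helper44.OT
open Pool.Agent.V5helper57.OT

section
variable {K : Type} [Field K]

/-- `N v w = ω (v, w) v` -/
def N (v : Fin 2 → K) : Matrix (Fin 2) (Fin 2) K :=
  !![-(v 0 * v 1), v 0 ^ 2; -(v 1 ^ 2), v 0 * v 1]

/-- `ω` -/
def om (v w : Fin 2 → K) : K := v 0 * w 1 - v 1 * w 0

lemma N_mulVec (v w : Fin 2 → K) : N v *ᵥ w = (om v w) • v := by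
  ext i; fin_cases i <;> simp [N, om, Matrix.mulVec, dotProduct, Fin.sum_univ_two] <;> ring

lemma N_trace (v : Fin 2 → K) : (N v).trace = 0 := by
  simp [N, Matrix.trace, Fin.sum_univ_two]

lemma N_smul (a : K) (v : Fin 2 → K) : N (a • v) = (a ^ 2) • N v := by
  ext i j; fin_cases i <;> fin_cases j <;> simp [N] <;> ring

lemma om_self (v : Fin 2 → K) : om v v = 0 := by simp [om]; ring

lemma om_swap (v w : Fin 2 → K) : om v w = - om w v := by simp [om]; ring

lemma om_smul (a b : K) (v w : Fin 2 → K) : om (a • v) (b • w) = a * b * om v w := by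
  simp [om]; ring

/-- parallel is transitive -/
lemma om_trans (x y z : Fin 2 → K) (hy : y ≠ 0) (h1 : om x y = 0) (h2 : om y z = 0) :
    om x z = 0 := by
  have hy' : y 0 ≠ 0 ∨ y 1 ≠ 0 := by
    by_contra h
    push Not at h
    apply hy
    ext i; fin_cases i
    · exact h.1
    · exact h.2
  unfold om at *
  rcases hy' with h | h
  · have : y 0 * (x 0 * z 1 - x 1 * z 0) = 0 := by linear_combination x 0 * h2 + z 0 * h1
    exact (mul_eq_zero.mp this).resolve_left h
  · have : y 1 * (x 0 * z 1 - x 1 * z 0) = 0 := by linear_combination x 1 * h2 + z 1 * h1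
    exact (mul_eq_zero.mp this).resolve_left h

lemma eigen_smulN (s : K) (x w : Fin 2 → K) (h : s = 0 ∨ om x w = 0) : Eigen (s • N x) w := by
  refine ⟨0, ?_⟩
  rw [Matrix.smul_mulVec, N_mulVec]
  rcases h with h | h <;> simp [h]

lemma eigen_of_two (h2 : (2 : K) ≠ 0) (C : Matrix (Fin 2) (Fin 2) K) (x : Fin 2 → K) (e : K)
    (h : (2 : K) • (C *ᵥ x) = e • x) : Eigen C x := by
  refine ⟨e / 2, ?_⟩
  have : C *ᵥ x = (2 : K)⁻¹ • ((2 : K) • (C *ᵥ x)) := by
    rw [smul_smul, inv_mul_cancel₀ h2, one_smul]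
  rw [this, h, smul_smul]
  congr 1
  ring

/-- two nonzero matrices -/
lemma pair (hT : S_TWO) (hP : S_PAR) (h2 : (2 : K) ≠ 0) (C : Matrix (Fin 2) (Fin 2) K)
    (x y v : Fin 2 → K) (e bxy byx sx sy cx cy : K) (he : e = 0 ∨ e = 1) (hC : C.trace = 0)
    (hx0 : x ≠ 0) (hsx : sx ≠ 0) (hsy : sy ≠ 0)
    (hx : (2 : K) • (C *ᵥ x + (bxy * sy * om y x) • y) = e • x)
    (hy : (2 : K) • (C *ᵥ y + (byx * sx * om x y) • x) = e • y)
    (hv : v ≠ 0) (hCv : Eigen C v) (hTv : Eigen (cx • sx • N x + cy • sy • N y) v)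
    (hb : bxy * cx ≠ byx * cy) :
    ∃ w : Fin 2 → K, w ≠ 0 ∧ Eigen C w ∧ om x w = 0 ∧ om y w = 0 := by
  by_cases hom : om y x = 0
  · refine ⟨x, hx0, ?_, om_self x, hom⟩
    apply eigen_of_two h2 C x e
    rw [← hx, hom]; simp
  · exfalso
    have h1 := hT K h2 C x y 0 e bxy 0 byx 0 sx sy 0 hC (by rw [← hx]; simp [om]) (by rw [← hy]; simp [om])
    have h3 : e * om y x = 0 := by
      have : (0 : K) = e * (y 0 * x 1 - y 1 * x 0) := by rw [← h1]; simp
      exact this.symm
    have he0 : e = 0 := (mul_eq_zero.mp h3).resolve_right hom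
    subst he0
    have hxx : C *ᵥ x + (bxy * sy * om y x) • y = 0 := by
      have h4 : (2 : K) • (C *ᵥ x + (bxy * sy * om y x) • y) = 0 := by rw [hx]; simp
      exact (smul_eq_zero.mp h4).resolve_left h2
    have hyy : C *ᵥ y + (byx * sx * om x y) • x = 0 := by
      have h4 : (2 : K) • (C *ᵥ y + (byx * sx * om x y) • x) = 0 := by rw [hy]; simp
      exact (smul_eq_zero.mp h4).resolve_left h2
    apply hb
    refine hP K h2 C x y v bxy byx sx sy cx cy hC hsx hsy ?_ hxx hyy hv hCv hTv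
    intro h5
    apply hom
    rw [om_swap]
    unfold om
    rw [h5]; simp

/-- three nonzero matrices -/
lemma triple (hT : S_TWO) (hR : S_TRI) (h2 : (2 : K) ≠ 0) (C : Matrix (Fin 2) (Fin 2) K)
    (x y z v : Fin 2 → K) (e b01 b02 b10 b12 b20 b21 c0 c1 c2 sx sy sz : K) (he : e = 0 ∨ e = 1)
    (hC : C.trace = 0) (hx0 : x ≠ 0) (hy0 : y ≠ 0) (hz0 : z ≠ 0)
    (hsx : sx ≠ 0) (hsy : sy ≠ 0) (hsz : sz ≠ 0)
    (hx : (2 : K) • (C *ᵥ x + (b01 * sy * om y x) • y + (b02 * sz * om z x) • z) = e • x)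
    (hy : (2 : K) • (C *ᵥ y + (b10 * sx * om x y) • x + (b12 * sz * om z y) • z) = e • y)
    (hz : (2 : K) • (C *ᵥ z + (b20 * sx * om x z) • x + (b21 * sy * om y z) • y) = e • z)
    (hv : v ≠ 0) (hCv : Eigen C v)
    (hTv : Eigen (c0 • sx • N x + c1 • sy • N y + c2 • sz • N z) v)
    (hb : Good b01 b02 b10 b12 b20 b21 c0 c1 c2) :
    ∃ w : Fin 2 → K, w ≠ 0 ∧ Eigen C w ∧ om x w = 0 ∧ om y w = 0 ∧ om z w = 0 := by
  obtain ⟨g1, g2, g3, -, -, -, gPhi⟩ := hb
  have t1 : (b02 - b12) * sz * (om x z * om z y) = e * om y x :=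
    hT K h2 C x y z e b01 b02 b10 b12 sx sy sz hC hx hy
  have t2 : (b10 - b20) * sx * (om y x * om x z) = e * om z y := by
    refine hT K h2 C y z x e b12 b10 b21 b20 sy sz sx hC ?_ ?_
    · rw [← hy]; unfold om; congr 1; abel
    · rw [← hz]; unfold om; congr 1; abel
  have t3 : (b21 - b01) * sy * (om z y * om y x) = e * om x z := by
    refine hT K h2 C z x y e b20 b21 b02 b01 sz sx sy hC ?_ ?_
    · rw [← hz]; unfold om; congr 1
    · rw [← hx]; unfold om; congr 1; abel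
  have n1 : b02 - b12 ≠ 0 := sub_ne_zero.mpr (Ne.symm g3)
  have n2 : b10 - b20 ≠ 0 := sub_ne_zero.mpr (Ne.symm g1)
  have n3 : b21 - b01 ≠ 0 := sub_ne_zero.mpr (Ne.symm g2)
  -- all parallel
  have key : om y x = 0 → om z x = 0 → ∃ w : Fin 2 → K, w ≠ 0 ∧ Eigen C w ∧ om x w = 0 ∧ om y w = 0 ∧ om z w = 0 := by
    intro h3 h4
    refine ⟨x, hx0, ?_, om_self x, h3, h4⟩
    apply eigen_of_two h2 C x e
    rw [← hx, h3, h4]; simp
  by_cases p1 : om y x = 0
  · have : om x z = 0 ∨ om z y = 0 := by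
      rw [p1, mul_zero] at t1
      rcases mul_eq_zero.mp t1 with h | h
      · exact absurd h (mul_ne_zero n1 hsz)
      · exact mul_eq_zero.mp h
    rcases this with h | h
    · exact key p1 (by rw [om_swap, h, neg_zero])
    · exact key p1 (om_trans z y x hy0 h p1)
  by_cases p2 : om z y = 0
  · have : om y x = 0 ∨ om x z = 0 := by
      rw [p2, mul_zero] at t2
      rcases mul_eq_zero.mp t2 with h | h
      · exact absurd h (mul_ne_zero n2 hsx)
      · exact mul_eq_zero.mp h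
    rcases this with h | h
    · exact absurd h p1
    · exfalso
      apply p1
      rw [om_swap]
      rw [om_trans x z y hz0 h p2, neg_zero]
  by_cases p3 : om x z = 0
  · exfalso
    rw [p3, mul_zero] at t3
    rcases mul_eq_zero.mp t3 with h | h
    · exact absurd h (mul_ne_zero n3 hsy)
    · rcases mul_eq_zero.mp h with h | h
      · exact p2 h
      · exact p1 h
  exfalso
  have he1 : e = 1 := by
    rcases he with h | h
    · exfalso
      rw [h, zero_mul] at t1
      exact mul_ne_zero (mul_ne_zero n1 hsz) (mul_ne_zero p3 p2) t1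
    · exact h
  subst he1
  have q1 : om x y ≠ 0 := by
    intro h; apply p1; rw [om_swap, h, neg_zero]
  -- z = a x + d y
  set a : K := om z y / om x y with ha
  set d : K := om x z / om x y with hd
  have ha0 : a ≠ 0 := div_ne_zero p2 q1
  have hd0 : d ≠ 0 := div_ne_zero p3 q1
  have hz' : z = a • x + d • y := by
    ext i
    have : om x y * z i = om z y * x i + om x z * y i := by
      fin_cases i <;> simp [om] <;> ring
    simp only [Pi.add_apply, Pi.smul_apply, smul_eq_mul, ha, hd]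
    field_simp
    linear_combination this
  apply gPhi
  have r0 : om (a • x) (d • y) = a * d * om x y := om_smul a d x y
  refine hR K h2 C (a • x) (d • y) v b01 b02 b10 b12 b20 b21 c0 c1 c2 (sx / a ^ 2) (sy / d ^ 2) sz hC ?_ ?_ ?_ ?_ ?_ ?_ hv hCv ?_
  · change om (a • x) (d • y) ≠ 0
    rw [r0]
    exact mul_ne_zero (mul_ne_zero ha0 hd0) q1
  · change (b20 - b10) * (sx / a ^ 2) * om (a • x) (d • y) = 1
    rw [r0]
    have : (b20 - b10) * sx * (om x y * om x z) = om z y := by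
      rw [one_mul] at t2
      rw [← t2, om_swap y x]; ring
    have h5 : (b20 - b10) * (sx / a ^ 2) * (a * d * om x y) = ((b20 - b10) * sx * (om x y * om x z)) / om z y := by
      rw [ha, hd]
      field_simp
    rw [h5, this, div_self p2]
  · change (b01 - b21) * (sy / d ^ 2) * om (a • x) (d • y) = 1
    rw [r0]
    have : (b01 - b21) * sy * (om z y * om x y) = om x z := by
      rw [one_mul] at t3
      rw [← t3, om_swap y x]; ring
    have h5 : (b01 - b21) * (sy / d ^ 2) * (a * d * om x y) = ((b01 - b21) * sy * (om z y * om x y)) / om x z := by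
      rw [ha, hd]
      field_simp
    rw [h5, this, div_self p3]
  · change (b12 - b02) * sz * om (a • x) (d • y) = 1
    rw [r0]
    have : (b12 - b02) * sz * (om x z * om z y) = om x y := by
      rw [one_mul] at t1
      rw [om_swap x y, ← t1]; ring
    have h5 : (b12 - b02) * sz * (a * d * om x y) = ((b12 - b02) * sz * (om x z * om z y)) / om x y := by
      rw [ha, hd]
      field_simp
    rw [h5, this, div_self q1]
  · -- first equation
    have e1 : a • ((2 : K) • (C *ᵥ x + (b01 * sy * om y x) • y + (b02 * sz * om z x) • z)) =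
      a • ((1 : K) • x) := by rw [hx]
    rw [one_smul] at e1
    refine Eq.trans ?_ e1
    rw [Matrix.mulVec_smul]
    have w1 : ((d • y) 0 * (a • x) 1 - (d • y) 1 * (a • x) 0) = d * a * om y x := by
      simp [om]; ring
    have w2 : (((a • x) 0 + (d • y) 0) * (a • x) 1 - ((a • x) 1 + (d • y) 1) * (a • x) 0) =
        d * a * om y x := by
      simp [om]; ring
    have w3 : om z x = d * om y x := by
      rw [hz']; simp [om]; ring
    rw [w1, w2, w3, ← hz']
    ext i
    simp only [Pi.add_apply, Pi.smul_apply, smul_eq_mul]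
    field_simp
    try ring
  · have e1 : d • ((2 : K) • (C *ᵥ y + (b10 * sx * om x y) • x + (b12 * sz * om z y) • z)) =
      d • ((1 : K) • y) := by rw [hy]
    rw [one_smul] at e1
    refine Eq.trans ?_ e1
    rw [Matrix.mulVec_smul]
    have w1 : ((a • x) 0 * (d • y) 1 - (a • x) 1 * (d • y) 0) = a * d * om x y := by
      simp [om]; ring
    have w2 : (((a • x) 0 + (d • y) 0) * (d • y) 1 - ((a • x) 1 + (d • y) 1) * (d • y) 0) =
        a * d * om x y := by
      simp [om]; ring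
    have w3 : om z y = a * om x y := by
      rw [hz']; simp [om]; ring
    rw [w1, w2, w3, ← hz']
    ext i
    simp only [Pi.add_apply, Pi.smul_apply, smul_eq_mul]
    field_simp
    try ring
  · have h6 : c0 • sx • N x + c1 • sy • N y + c2 • sz • N z = 
      c0 • (sx / a ^ 2) • N (a • x) + c1 • (sy / d ^ 2) • N (d • y) + c2 • sz • N (a • x + d • y) := by
      rw [N_smul, N_smul, ← hz']
      rw [smul_smul (sx / a ^ 2), smul_smul (sy / d ^ 2)]
      rw [div_mul_cancel₀ _ (pow_ne_zero 2 ha0), div_mul_cancel₀ _ (pow_ne_zero 2 hd0)]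
    rw [h6] at hTv
    exact hTv

end

theorem t_NT : S_NT := by
  intro hN hT hP hR K _ h2 u A c e hu he hG C T hC hTT hrel ⟨v, hv, hCv, hTv⟩
  obtain ⟨hNa, hNb⟩ := hN K h2
  have hs : ∀ i, ∃ (s : K) (w : Fin 2 → K), w ≠ 0 ∧ T i = s • N w := fun i => hNa (T i) (hTT i)
  choose s w hw hsw using hs
  -- the relation
  have hmain : ∀ i, s i ≠ 0 → (2 : K) • (C *ᵥ (w i) + ∑ j, (A i j / u i * s j * om (w j) (w i)) • w j) = e • w i := by
    intro i hi
    have h := hrel i
    have htr : (u i • C + ∑ j, A i j • T j).trace = 0 := by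
      rw [Matrix.trace_add, Matrix.trace_smul, hC, Matrix.trace_sum]
      simp [hsw, N_trace]
    have h1 : (u i • C + ∑ j, A i j • T j) * N (w i) - N (w i) * (u i • C + ∑ j, A i j • T j) =
        (e * u i) • N (w i) := by
      have h3 : s i • ((u i • C + ∑ j, A i j • T j) * N (w i) - N (w i) * (u i • C + ∑ j, A i j • T j)) =
        s i • ((e * u i) • N (w i)) := by
        rw [smul_sub, ← Matrix.mul_smul, ← Matrix.smul_mul, ← hsw i, h, smul_comm, ← hsw i]
      exact smul_right_injective _ hi h3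
    have h4 := hNb _ (w i) (e * u i) htr (hw i) h1
    rw [Matrix.add_mulVec, Matrix.smul_mulVec, Matrix.sum_mulVec] at h4
    have h5 : ∀ j, (A i j • T j) *ᵥ w i = (A i j * s j * om (w j) (w i)) • w j := by
      intro j
      rw [hsw j, Matrix.smul_mulVec, Matrix.smul_mulVec, N_mulVec, smul_smul, smul_smul]
    simp only [h5] at h4
    have h6 : (u i) • ((2 : K) • (C *ᵥ (w i) + ∑ j, (A i j / u i * s j * om (w j) (w i)) • w j)) =
        (u i) • (e • w i) := by
      rw [smul_smul (u i) e, mul_comm (u i) e, ← h4, smul_comm, smul_add, Finset.smul_sum]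
      congr 2
      refine Finset.sum_congr rfl fun j _ => ?_
      rw [smul_smul]
      congr 1
      have := hu i
      field_simp
    exact smul_right_injective _ (hu i) h6
  have m0 : s 0 ≠ 0 → (2 : K) • (C *ᵥ (w 0) + (A 0 1 / u 0 * s 1 * om (w 1) (w 0)) • w 1 +
      (A 0 2 / u 0 * s 2 * om (w 2) (w 0)) • w 2) = e • w 0 := by
    intro h
    rw [← hmain 0 h, Fin.sum_univ_three, om_self]
    congr 1
    simp only [mul_zero, zero_smul]; abel
  have m1 : s 1 ≠ 0 → (2 : K) • (C *ᵥ (w 1) + (A 1 0 / u 1 * s 0 * om (w 0) (w 1)) • w 0 +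
      (A 1 2 / u 1 * s 2 * om (w 2) (w 1)) • w 2) = e • w 1 := by
    intro h
    rw [← hmain 1 h, Fin.sum_univ_three, om_self]
    congr 1
    simp only [mul_zero, zero_smul]; abel
  have m2 : s 2 ≠ 0 → (2 : K) • (C *ᵥ (w 2) + (A 2 0 / u 2 * s 0 * om (w 0) (w 2)) • w 0 +
      (A 2 1 / u 2 * s 1 * om (w 1) (w 2)) • w 1) = e • w 2 := by
    intro h
    rw [← hmain 2 h, Fin.sum_univ_three, om_self]
    congr 1
    simp only [mul_zero, zero_smul]; abel
  rw [Fin.sum_univ_three, hsw 0, hsw 1, hsw 2] at hTv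
  -- the aim
  suffices h : ∃ x : Fin 2 → K, x ≠ 0 ∧ Eigen C x ∧ (s 0 = 0 ∨ om (w 0) x = 0) ∧ (s 1 = 0 ∨ om (w 1) x = 0) ∧
      (s 2 = 0 ∨ om (w 2) x = 0) by
    obtain ⟨x, hx, hCx, h0, h1, h2'⟩ := h
    refine ⟨x, hx, hCx, ?_⟩
    intro i
    rw [hsw i]
    apply eigen_smulN
    fin_cases i
    · exact h0
    · exact h1
    · exact h2'
  have hG' := hG
  obtain ⟨-, -, -, g4, g5, g6, -⟩ := hG
  by_cases z0 : s 0 = 0
  · by_cases z1 : s 1 = 0
    · by_cases z2 : s 2 = 0
      · exact ⟨v, hv, hCv, Or.inl z0, Or.inl z1, Or.inl z2⟩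
      · refine ⟨w 2, hw 2, ?_, Or.inl z0, Or.inl z1, Or.inr (om_self _)⟩
        apply eigen_of_two h2 C (w 2) e
        rw [← m2 z2, z0, z1]; simp
    · by_cases z2 : s 2 = 0
      · refine ⟨w 1, hw 1, ?_, Or.inl z0, Or.inr (om_self _), Or.inl z2⟩
        apply eigen_of_two h2 C (w 1) e
        rw [← m1 z1, z0, z2]; simp
      · obtain ⟨x, hx, hCx, a1, a2⟩ := pair hT hP h2 C (w 1) (w 2) v e (A 1 2 / u 1) (A 2 1 / u 2) (s 1) (s 2)
          (c 1) (c 2) he hC (hw 1) z1 z2 (by rw [← m1 z1, z0]; simp) (by rw [← m2 z2, z0]; simp) hv hCv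
          (by rw [z0] at hTv; simpa using hTv) g6
        exact ⟨x, hx, hCx, Or.inl z0, Or.inr a1, Or.inr a2⟩
  · by_cases z1 : s 1 = 0
    · by_cases z2 : s 2 = 0
      · refine ⟨w 0, hw 0, ?_, Or.inr (om_self _), Or.inl z1, Or.inl z2⟩
        apply eigen_of_two h2 C (w 0) e
        rw [← m0 z0, z1, z2]; simp
      · obtain ⟨x, hx, hCx, a1, a2⟩ := pair hT hP h2 C (w 0) (w 2) v e (A 0 2 / u 0) (A 2 0 / u 2) (s 0) (s 2)
          (c 0) (c 2) he hC (hw 0) z0 z2 (by rw [← m0 z0, z1]; simp) (by rw [← m2 z2, z1]; simp) hv hCv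
          (by rw [z1] at hTv; simpa using hTv) g5
        exact ⟨x, hx, hCx, Or.inr a1, Or.inl z1, Or.inr a2⟩
    · by_cases z2 : s 2 = 0
      · obtain ⟨x, hx, hCx, a1, a2⟩ := pair hT hP h2 C (w 0) (w 1) v e (A 0 1 / u 0) (A 1 0 / u 1) (s 0) (s 1)
          (c 0) (c 1) he hC (hw 0) z0 z1 (by rw [← m0 z0, z2]; simp) (by rw [← m1 z1, z2]; simp) hv hCv
          (by rw [z2] at hTv; simpa using hTv) g4
        exact ⟨x, hx, hCx, Or.inr a1, Or.inr a2, Or.inl z2⟩
      · obtain ⟨x, hx, hCx, a1, a2, a3⟩ := triple hT hR h2 C (w 0) (w 1) (w 2) v e (A 0 1 / u 0) (A 0 2 / u 0)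
          (A 1 0 / u 1) (A 1 2 / u 1) (A 2 0 / u 2) (A 2 1 / u 2) (c 0) (c 1) (c 2) (s 0) (s 1) (s 2)
          he hC (hw 0) (hw 1) (hw 2) z0 z1 z2 (m0 z0) (m1 z1) (m2 z2) hv hCv hTv hG'
        exact ⟨x, hx, hCx, Or.inr a1, Or.inr a2, Or.inr a3⟩

end Pool.Agent.V5helper44.OT
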